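import Pool.Agent.W_44c680_h9.Bip12

set_option autoImplicit false

namespace Pool.Agent.Results.MP_44c680_co.BipartiteGalois

open Polynomial Pool.Agent.W_44c680_h9

/-- Let `G` and `H` be bipartite graphs and let the Galois group of the characteristic polynomial of
`G` be as large as the sign symmetry of the spectrum allows, or have at least half of that number
of elements. If the rank of `H` is at most the rank of `G` (at most larger by two if the rank of
`G` is at least twelve), then `H` has the energy of `G` only if it has the same nonzero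
eigenvalues, and in particular the same number of edges. Consequently no edge deletion preserves
the energy of `G` if `G`, or the graph without the edge, has such a Galois group and at least the
rank twelve. -/
theorem result :
    (∀ (V W : Type) [Fintype V] [Fintype W] (G : SimpleGraph V) (H : SimpleGraph W),
      G.IsBipartite → H.IsBipartite → rankG H ≤ rankG G →
      SignedGalois G → (FullSigned G ∨ rankG G ≠ 8) →
        (energy H = energy G ↔ X ^ Fintype.card V * chp H = X ^ Fintype.card W * chp G)) ∧
    (∀ (V W : Type) [Fintype V] [Fintype W] (G : SimpleGraph V) (H : SimpleGraph W),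
      G.IsBipartite → H.IsBipartite → HalfSigned G → 12 ≤ rankG G → rankG H ≤ rankG G + 2 →
        (energy H = energy G ↔ X ^ Fintype.card V * chp H = X ^ Fintype.card W * chp G)) ∧
    (∀ (V W : Type) [Fintype V] [Fintype W] (G : SimpleGraph V) (H : SimpleGraph W),
      G.IsBipartite → H.IsBipartite → rankG H ≤ rankG G →
      SignedGalois G → energy H = energy G → H.edgeSet.ncard = G.edgeSet.ncard) ∧
    (∀ (V : Type) [Fintype V] (G : SimpleGraph V), G.IsBipartite → ∀ e ∈ G.edgeSet,
      ((HalfSigned G ∧ 12 ≤ rankG G) ∨
        (HalfSigned (G.deleteEdges {e}) ∧ 12 ≤ rankG (G.deleteEdges {e})) ∨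
        (SignedGalois G ∧ rankG (G.deleteEdges {e}) ≤ rankG G) ∨
        (SignedGalois (G.deleteEdges {e}) ∧ rankG G ≤ rankG (G.deleteEdges {e}))) →
      energy (G.deleteEdges {e}) ≠ energy G) :=
  ⟨fun _ _ _ _ G H h1 h2 h3 h4 h5 => bip_rigid G H h1 h2 h3 h4 h5,
    fun _ _ _ _ G H h1 h2 h3 h4 h5 => bip_rigid_wide G H h1 h2 h3 h4 h5,
    fun _ _ _ _ G H h1 h2 h3 h4 h5 => bip_count G H h1 h2 h3 h4 h5,
    fun _ _ G h1 e he h => bip_delete_wide G h1 e he h⟩

end Pool.Agent.Results.MP_44c680_co.BipartiteGalois
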