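import Pool.Agent.W_44c680_h9.Star4

set_option autoImplicit false

namespace Pool.Agent.Results.MP_44c680_co.CliqueStar

open Pool.Agent.W_44c680_h9

/-- Let `cliq S` be the disjoint complete graphs on `Fin (a l)`, `l : ι`, with a further vertex
joined to the vertices of `S l`, a nonempty proper part of `Fin (a l)`. The deletion of the edge
between the further vertex and `x ∈ S k` leaves the energy unchanged exactly when
`t = 2 * (S k).card - a k - 1` is positive and the sum over `l` of
`(S l).card * (t + a l - (S l).card) / (t + a l)` is `t * (t + 1)`. -/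
theorem result {ι : Type} [Fintype ι] (a : ι → ℕ) (S : ∀ l, Finset (Fin (a l)))
    (hS : ∀ l, (S l).Nonempty) (hS' : ∀ l, (S l).card < a l) :
    (cliq S).Connected ∧ ∀ (k : ι) (x : Fin (a k)), x ∈ S k →
      (s(.inl (), .inr ⟨k, x⟩) ∈ (cliq S).edgeSet ∧
      (energy ((cliq S).deleteEdges {s(.inl (), .inr ⟨k, x⟩)}) = energy (cliq S) ↔
        ∃ t : ℕ, 0 < t ∧ 2 * (S k).card = a k + 1 + t ∧
          ∑ l, ((S l).card : ℚ) * (t + a l - (S l).card) / (t + a l) = t * (t + 1))) := by
  classical
  refine ⟨cliq_connected S hS, fun k x hx => ⟨hx, ?_⟩⟩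
  rw [criterion S hS hS' k x hx]
  have key : ∀ t : ℕ, 2 * (S k).card = a k + 1 + t →
      ((∑ l, nb S l * (2 * nb S k - a k - 1 + a l - nb S l) / (2 * nb S k - a k - 1 + a l) =
        (2 * nb S k - a k - 1) * (2 * nb S k - a k - 1 + 1)) ↔
      ∑ l, ((S l).card : ℚ) * (t + a l - (S l).card) / (t + a l) = t * (t + 1)) := by
    intro t ht
    have h1 : 2 * nb S k - a k - 1 = (t : ℝ) := by
      have : (2 : ℝ) * ((S k).card : ℝ) = a k + 1 + t := by exact_mod_cast ht
      unfold nb
      linarith
    rw [h1]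
    have h2 : ((∑ l, ((S l).card : ℚ) * (t + a l - (S l).card) / (t + a l) : ℚ) : ℝ) =
        ∑ l, nb S l * (t + a l - nb S l) / (t + a l) := by
      push_cast
      rfl
    constructor
    · intro h
      have h3 : ((∑ l, ((S l).card : ℚ) * (t + a l - (S l).card) / (t + a l) : ℚ) : ℝ) =
          ((t * (t + 1) : ℚ) : ℝ) := by
        rw [h2, h]
        push_cast
        rfl
      exact_mod_cast h3
    · intro h
      rw [← h2, h]
      push_cast
      rfl
  constructor
  · rintro ⟨h1, h2⟩
    have h3 : a k + 1 < 2 * (S k).card := by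
      have : (a k : ℝ) + 1 < 2 * ((S k).card : ℝ) := by
        unfold nb at h1
        linarith
      exact_mod_cast this
    obtain ⟨t, ht⟩ := Nat.exists_eq_add_of_lt h3
    refine ⟨t + 1, Nat.succ_pos t, by omega, (key (t + 1) (by omega)).mp h2⟩
  · rintro ⟨t, ht, h1, h2⟩
    refine ⟨?_, (key t h1).mpr h2⟩
    have : (2 : ℝ) * ((S k).card : ℝ) = a k + 1 + t := by exact_mod_cast h1
    have h4 : (0 : ℝ) < t := by exact_mod_cast ht
    unfold nb
    linarith

end Pool.Agent.Results.MP_44c680_co.CliqueStar
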