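import Pool.Agent.W_44c680_h9.Gal19

set_option autoImplicit false

namespace Pool.Agent.Results.MP_44c680_co.GaloisGroup

open Polynomial Pool.Agent.W_44c680_h9

/-- Let the Galois group of the characteristic polynomial of `G` be the full symmetric group on the
nonzero eigenvalues. Then a graph `H` of at most the rank of `G` has the energy of `G` only if it
has the same nonzero eigenvalues; if the rank of `G` is at least six, the same holds for the graphs
`H` whose rank is larger by at most two and whose number of edges is not much larger. Consequently
no edge deletion preserves the energy of `G` if `G`, or the graph without the edge, has full Galois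
group and at least the rank six. More generally, no edge deletion preserves the energy of `G` if the
Galois group of a large factor `f` of the characteristic polynomial is the full symmetric group on
the roots of `f` and the roots of the cofactor `q` are small; no graph with fewer edges and with a
rank that is larger by at most two has the energy of such a `G`. The same holds, also for the
addition of an edge, if the characteristic polynomial is `(X - r) * f` with an integer `r`, for
instance for regular graphs of degree `r` whose other eigenvalues have full Galois group. -/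
theorem result :
    (∀ (V W : Type) [Fintype V] [Fintype W] (G : SimpleGraph V) (H : SimpleGraph W),
      FullGalois G → rankG H ≤ rankG G →
        (energy H = energy G ↔ X ^ Fintype.card V * chp H = X ^ Fintype.card W * chp G)) ∧
    (∀ (V W : Type) [Fintype V] [Fintype W] (G : SimpleGraph V) (H : SimpleGraph W),
      FullGalois G → 6 ≤ rankG G → rankG H ≤ rankG G + 2 →
      2 * H.edgeSet.ncard < 2 * G.edgeSet.ncard + rankG G →
        (energy H = energy G ↔ X ^ Fintype.card V * chp H = X ^ Fintype.card W * chp G)) ∧
    (∀ (V : Type) [Fintype V] (G : SimpleGraph V), ∀ e ∈ G.edgeSet,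
      ((FullGalois G ∧ (6 ≤ rankG G ∨ rankG (G.deleteEdges {e}) ≤ rankG G)) ∨
        (FullGalois (G.deleteEdges {e}) ∧
          (6 ≤ rankG (G.deleteEdges {e}) ∨ rankG G ≤ rankG (G.deleteEdges {e})))) →
      energy (G.deleteEdges {e}) ≠ energy G) ∧
    (∀ (V : Type) [Fintype V] (G : SimpleGraph V) (k : ℕ) (q f : ℚ[X]),
      chp G = X ^ k * q * f → Nat.card f.Gal = f.natDegree.factorial →
      q.natDegree + 6 ≤ f.natDegree →
      ((q.aroots ℝ).map fun x => x ^ 2).sum < ((q.aroots ℝ).map fun x => |x|).sum + 2 →
      ((q.aroots ℝ).map fun x => x ^ 2).sum + 2 * |(q.aroots ℝ).sum| < f.natDegree + 2 →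
        (∀ e ∈ G.edgeSet, energy (G.deleteEdges {e}) ≠ energy G) ∧
        (∀ (W : Type) [Fintype W] (H : SimpleGraph W), H.edgeSet.ncard < G.edgeSet.ncard →
          rankG H ≤ rankG G + 2 → energy H ≠ energy G)) ∧
    (∀ (V : Type) [Fintype V] (G : SimpleGraph V) (r : ℤ) (f : ℚ[X]),
      chp G = (X - C (r : ℚ)) * f → Nat.card f.Gal = f.natDegree.factorial →
      8 ≤ Fintype.card V → |r| + 1 < Fintype.card V →
        (∀ e ∈ G.edgeSet, energy (G.deleteEdges {e}) ≠ energy G) ∧
        (∀ H : SimpleGraph V, H.edgeSet.ncard ≠ G.edgeSet.ncard →
          2 * |(H.edgeSet.ncard : ℤ) - G.edgeSet.ncard| < Fintype.card V →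
            energy H ≠ energy G)) :=
  ⟨fun _ _ _ _ G H h1 h2 => rigid G H h1 h2,
    fun _ _ _ _ G H h1 h2 h3 h4 => rigid_wide G H h1 h2 h3 h4,
    fun _ _ G e he h => delete_wide G e he h,
    fun _ _ G k q f h1 h2 h3 h4 h5 =>
      ⟨fun e he => factor_delete G k q f h1 h2 h3 h4 h5 e he,
        fun _ _ H h6 h7 => factor_ne G H k q f h1 h2 h3 h4 h5 h6 (h7.trans (by
          have h8 := rank_le_degree G k (q * f) (by rw [h1, mul_assoc])
          have h9 : (q * f).natDegree ≤ q.natDegree + f.natDegree := natDegree_mul_le
          omega))⟩,
    fun _ _ G r f h1 h2 h3 h4 =>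
      ⟨fun e he => regular_ne G (G.deleteEdges {e}) r f h1 h2 h3 h4
          (by have := ncard_delete G e he; omega)
          (by
            have h5 := ncard_delete G e he
            have h6 : ((G.deleteEdges {e}).edgeSet.ncard : ℤ) - G.edgeSet.ncard = -1 := by omega
            rw [h6]
            norm_num
            omega),
        fun H h5 h6 => regular_ne G H r f h1 h2 h3 h4 h5 h6⟩⟩

end Pool.Agent.Results.MP_44c680_co.GaloisGroup
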