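import Pool.Agent.W_44c680_h9.Fin

set_option autoImplicit false

namespace Pool.Agent.Results.MP_44c680_co.Universality

open Pool.Agent.W_44c680_h9

/-- For `m ≤ 2 * n` there are fixed places for two copies of `Fin m` in `Fin (8 * n + 2)` such that
any two graphs on `Fin m` sit there, as an induced subgraph and without edges between them, inside
a connected graph on `8 * n + 2` vertices that has an edge whose deletion leaves the energy
unchanged. -/
theorem result (m n : ℕ) (hn : 1 ≤ n) (hm : m ≤ 2 * n) :
    ∃ φ : Fin m ⊕ Fin m ↪ Fin (8 * n + 2), ∀ F F' : SimpleGraph (Fin m),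
      ∃ G : SimpleGraph (Fin (8 * n + 2)), G.Connected ∧ G.comap φ = F ⊕g F' ∧
        ∃ e ∈ G.edgeSet, energy (G.deleteEdges {e}) = energy G :=
  universal m n hn hm

end Pool.Agent.Results.MP_44c680_co.Universality
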